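import Pool.Agent.N290.RI.Stm

/-!
# Project RI, part C5 (helper123): Bergman integrals of bounded functions are holomorphic
-/

set_option autoImplicit false

open Complex MeasureTheory Set Filter Topology
open scoped ENNReal

namespace Pool.Agent.N123.RIC5

open Pool.Agent.N290.RI

/-- the inner product with `w` as a continuous linear map -/
noncomputable def ipL (w : ℂ × ℂ) : (ℂ × ℂ) →L[ℂ] ℂ :=
  (starRingEnd ℂ w.1) • ContinuousLinearMap.fst ℂ ℂ ℂ +
    (starRingEnd ℂ w.2) • ContinuousLinearMap.snd ℂ ℂ ℂ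

lemma ipL_apply (w z : ℂ × ℂ) : ipL w z = ip z w := by
  unfold ipL ip
  simp only [add_apply, smul_apply,
    ContinuousLinearMap.coe_fst', ContinuousLinearMap.coe_snd', smul_eq_mul]
  ring

lemma ipL_cont : Continuous ipL := by
  unfold ipL
  have h1 : Continuous fun w : ℂ × ℂ => starRingEnd ℂ w.1 := Complex.continuous_conj.comp continuous_fst
  have h2 : Continuous fun w : ℂ × ℂ => starRingEnd ℂ w.2 := Complex.continuous_conj.comp continuous_snd
  exact (h1.smul continuous_const).add (h2.smul continuous_const)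

/-- Cauchy-Schwarz -/
lemma ip_le (z w : ℂ × ℂ) : ‖ip z w‖ ≤ nm z * nm w := by
  unfold nm
  rw [← Real.sqrt_mul (N_nonneg z)]
  apply Real.le_sqrt_of_sq_le
  have h1 : ‖ip z w‖ ≤ ‖z.1‖ * ‖w.1‖ + ‖z.2‖ * ‖w.2‖ := by
    unfold ip
    refine (norm_add_le _ _).trans (le_of_eq ?_)
    rw [norm_mul, norm_mul, RCLike.norm_conj, RCLike.norm_conj]
  have h2 : ‖ip z w‖ ^ 2 ≤ (‖z.1‖ * ‖w.1‖ + ‖z.2‖ * ‖w.2‖) ^ 2 :=
    pow_le_pow_left₀ (norm_nonneg _) h1 2
  refine h2.trans ?_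
  unfold N
  nlinarith [sq_nonneg (‖z.1‖ * ‖w.2‖ - ‖z.2‖ * ‖w.1‖)]

lemma comp_le {w : ℂ × ℂ} (hw : w ∈ B) : ‖w.1‖ ≤ 1 ∧ ‖w.2‖ ≤ 1 := by
  have h1 : ‖w.1‖ ^ 2 + ‖w.2‖ ^ 2 < 1 := hw
  constructor
  · nlinarith [sq_nonneg ‖w.2‖, norm_nonneg w.1]
  · nlinarith [sq_nonneg ‖w.1‖, norm_nonneg w.2]

lemma ipL_norm {w : ℂ × ℂ} (hw : w ∈ B) : ‖ipL w‖ ≤ 2 := by
  refine ContinuousLinearMap.opNorm_le_bound _ (by norm_num) fun z => ?_
  rw [ipL_apply]
  unfold ip
  refine (norm_add_le _ _).trans ?_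
  rw [norm_mul, norm_mul, RCLike.norm_conj, RCLike.norm_conj]
  obtain ⟨h1, h2⟩ := comp_le hw
  have h3 : ‖z.1‖ ≤ ‖z‖ := norm_fst_le z
  have h4 : ‖z.2‖ ≤ ‖z‖ := norm_snd_le z
  have h5 : ‖z.1‖ * ‖w.1‖ ≤ ‖z‖ * 1 := mul_le_mul h3 h1 (norm_nonneg _) (norm_nonneg _)
  have h6 : ‖z.2‖ * ‖w.2‖ ≤ ‖z‖ * 1 := mul_le_mul h4 h2 (norm_nonneg _) (norm_nonneg _)
  linarith

lemma B_fin : volume B < ∞ := by
  refine lt_of_le_of_lt (measure_mono (t := Metric.closedBall (0 : ℂ × ℂ) 1) fun w hw => ?_)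
    Metric.isBounded_closedBall.measure_lt_top
  rw [mem_closedBall_zero_iff, Prod.norm_def]
  exact max_le (comp_le hw).1 (comp_le hw).2

theorem C5 : Pool.Agent.N290.RI.C5 := by
  intro γ M hγ hM z0 hz0
  have hM0 : 0 ≤ M := (norm_nonneg _).trans (hM z0 hz0)
  have hn0 : nm z0 < 1 := mem_B_nm.1 hz0
  obtain ⟨r, hr⟩ : ∃ r : ℝ, r = (1 + nm z0) / 2 := ⟨_, rfl⟩
  have hr0 : nm z0 < r := by linarith
  have hr1 : r < 1 := by linarith
  have hrp : 0 ≤ r := (nm_nonneg z0).trans hr0.le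
  have hnmc : Continuous nm := Real.continuous_sqrt.comp N_continuous
  have hs : {z : ℂ × ℂ | nm z < r} ∈ 𝓝 z0 :=
    (isOpen_lt hnmc continuous_const).mem_nhds hr0
  have hlow : ∀ z ∈ {z : ℂ × ℂ | nm z < r}, ∀ w ∈ B, 1 - r ≤ ‖1 - ip z w‖ := by
    intro z hz w hw
    have h1 : ‖ip z w‖ ≤ r := by
      refine (ip_le z w).trans ?_
      have h2 : nm z * nm w ≤ r * 1 :=
        mul_le_mul (le_of_lt hz) (mem_B_nm.1 hw).le (nm_nonneg _) hrp
      linarith
    have h3 := norm_sub_norm_le (1 : ℂ) (ip z w)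
    rw [norm_one] at h3
    linarith
  have hfin : IsFiniteMeasure (volume.restrict B) := ⟨by
    rw [Measure.restrict_apply_univ]
    exact B_fin⟩
  have hmem : ∀ᵐ w ∂(volume.restrict B), w ∈ B := ae_restrict_mem B_meas
  have hipc : ∀ z : ℂ × ℂ, Continuous fun w => ip z w := by
    intro z
    have h1 : (fun w => ip z w) = fun w => ipL w z := by
      funext w
      rw [ipL_apply]
    rw [h1]
    exact ipL_cont.clm_apply continuous_const
  have hmeas : ∀ (z : ℂ × ℂ) (k : ℕ), AEStronglyMeasurable (fun w => γ w / (1 - ip z w) ^ k)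
      (volume.restrict B) := by
    intro z k
    have h1 : Measurable fun w => ((1 - ip z w) ^ k)⁻¹ :=
      ((continuous_const.sub (hipc z)).pow k).measurable.inv
    simp only [div_eq_mul_inv]
    exact hγ.mul h1.aestronglyMeasurable
  have hbd : ∀ z ∈ {z : ℂ × ℂ | nm z < r}, ∀ w ∈ B, ∀ k : ℕ,
      ‖γ w / (1 - ip z w) ^ k‖ ≤ M / (1 - r) ^ k := by
    intro z hz w hw k
    rw [norm_div, norm_pow]
    have h1 := hlow z hz w hw
    have h2 := hM w hw
    have h3 : 0 < 1 - r := by linarith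
    gcongr
  have key := hasFDerivAt_integral_of_dominated_of_fderiv_le (𝕜 := ℂ)
    (μ := volume.restrict B) (F := fun z w => γ w / (1 - ip z w) ^ 3)
    (F' := fun z w => (3 * (γ w / (1 - ip z w) ^ 4)) • ipL w) (x₀ := z0)
    (s := {z : ℂ × ℂ | nm z < r}) (bound := fun _ => 3 * (M / (1 - r) ^ 4) * 2) hs ?_ ?_ ?_ ?_ ?_ ?_
  · exact key.differentiableAt.differentiableWithinAt
  · exact Eventually.of_forall fun z => hmeas z 3
  · refine Integrable.of_bound (hmeas z0 3) (M / (1 - r) ^ 3) ?_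
    filter_upwards [hmem] with w hw
    exact hbd z0 hr0 w hw 3
  · exact ((hmeas z0 4).const_mul 3).smul ipL_cont.aestronglyMeasurable
  · filter_upwards [hmem] with w hw z hz
    rw [norm_smul, norm_mul]
    have h1 := hbd z hz w hw 4
    have h2 := ipL_norm hw
    have h3 : ‖(3 : ℂ)‖ = 3 := by simp
    rw [h3]
    have h4 : 0 ≤ M / (1 - r) ^ 4 := by
      have : 0 < 1 - r := by linarith
      positivity
    gcongr
  · exact integrable_const _
  · filter_upwards [hmem] with w hw z hz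
    have h1 : 1 - ip z w ≠ 0 := by
      intro h0
      have h2 := hlow z hz w hw
      rw [h0, norm_zero] at h2
      linarith
    have h2 : HasFDerivAt (fun z => 1 - ip z w) (-ipL w) z := by
      have h3 : (fun z => 1 - ip z w) = fun z => 1 - ipL w z := by
        funext z
        rw [ipL_apply]
      rw [h3]
      exact (ipL w).hasFDerivAt.const_sub 1
    have h3 : HasDerivAt (fun t : ℂ => γ w / t ^ 3) (-(3 * (γ w / (1 - ip z w) ^ 4))) (1 - ip z w) := by
      have h4 := ((hasDerivAt_pow 3 (1 - ip z w)).inv (pow_ne_zero 3 h1)).const_mul (γ w)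
      have h5 : (fun t : ℂ => γ w / t ^ 3) = fun t : ℂ => γ w * (t ^ 3)⁻¹ := by
        funext t
        rw [div_eq_mul_inv]
      rw [h5]
      refine h4.congr_deriv ?_
      push_cast
      field_simp
    have h4 := h3.comp_hasFDerivAt z h2
    refine h4.congr_fderiv ?_
    rw [smul_neg, neg_smul, neg_neg]

end Pool.Agent.N123.RIC5
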